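import Mathlib
import Pool.Agent.Lib.MP_16ef92_ag.RS.Les
import Pool.Agent.Lib.MP_16ef92_ag.CV.GT

set_option autoImplicit false
set_option linter.unusedSectionVars false
set_option linter.unusedVariables false
set_option linter.style.haveILetI false

namespace Pool.Agent.Lib.MP_16ef92_ag.HS

open RS CV Module

noncomputable section

variable [Bg] {R Rt R' Rt' : Type} [CommRing R] [CommRing Rt] [CommRing R'] [CommRing Rt']
  {Γ Γ' : Type} [Group Γ] [Group Γ'] {a : R →+* Rt} {ρ : Γ →* (Rt →+* Rt)} {Φ : AL.Fam Γ}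
  {a' : R' →+* Rt'} {ρ' : Γ' →* (Rt' →+* Rt')} {Φ' : AL.Fam Γ'} {fr : R →+* R'} {ft : Rt →+* Rt'}

/-- The morphism over the top of the towers. -/
def up {F : Sys R} {F' : Sys R'} (φ : Mor fr F F') (e : ft.comp a = a'.comp fr) :
    Mor ft (F.pb a) (F'.pb a') where
  φ y := φ.φ (y.comp a')
  add y u hu v hv := φ.add _ u ((congrArg (fun b => u ∈ F.M (y.comp b)) e).mp hu) v
    ((congrArg (fun b => v ∈ F.M (y.comp b)) e).mp hv)
  mem y u hu := φ.mem _ u ((congrArg (fun b => u ∈ F.M (y.comp b)) e).mp hu)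
  sec {V} _ {b} {s} hs := φ.sec (a := b.comp a')
    ((congrArg (fun c => s ∈ F.S (b.comp c)) e).mp hs)

theorem up_can {F : Sys R} {F' : Sys R'} (φ : Mor fr F F') (e : ft.comp a = a'.comp fr) (q : ℕ)
    (ξ : H q F) : Hmap q (up φ e) (Hmap q (F.can a) ξ) = Hmap q (F'.can a') (Hmap q φ ξ) :=
  Hmap_sq q _ _ _ _ e (fun _ _ _ => rfl) ξ

/-- The action on the cohomology of the top of the tower. -/
def actH (h : GT a ρ Φ) (q : ℕ) (F : Sys R) : Γ →* End ℤ (HH q F a) where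
  toFun g := (HR q F (ρ g) (h.fix g)).toIntLinearMap
  map_one' := LinearMap.ext fun ξ => Hmap_id q _ (map_one ρ) (fun _ _ _ => rfl) ξ
  map_mul' g k := LinearMap.ext fun ξ =>
    (HR_HR q F _ (h.fix k) _ (h.fix g) _ (h.fix (g * k)) (map_mul ρ g k).symm ξ).symm

variable (h : GT a ρ Φ) (h' : GT a' ρ' Φ')

theorem actH_apply (q : ℕ) (F : Sys R) (g : Γ) (ξ : HH q F a) :
    actH h q F g ξ = HR q F (ρ g) (h.fix g) ξ := rfl

theorem actH_zero (F : Sys R) (g : Γ) (s : F.S a) : actH h 0 F g s = h.act F g s := rfl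

theorem actH_can (q : ℕ) (F : Sys R) (g : Γ) (ξ : H q F) :
    actH h q F g (Hmap q (F.can a) ξ) = Hmap q (F.can a) ξ :=
  Hmap_comp_of q _ _ _ (h.fix g) (fun _ _ _ => rfl) ξ

theorem up_act {F : Sys R} {F' : Sys R'} (φ : Mor fr F F') (e : ft.comp a = a'.comp fr) {g : Γ}
    {g' : Γ'} (hg : ft.comp (ρ g) = (ρ' g').comp ft) (q : ℕ) (ξ : HH q F a) :
    Hmap q (up φ e) (actH h q F g ξ) = actH h' q F' g' (Hmap q (up φ e) ξ) :=
  Hmap_sq q (F.rm (ρ g) (h.fix g)) (up φ e) (up φ e) (F'.rm (ρ' g') (h'.fix g')) hg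
    (fun y u _ => congrArg (fun b => φ.φ (y.comp b) u) (h'.fix g').symm) ξ

/-- The connecting map of the pulled back canonical sequence. -/
def dl (a : R →+* Rt) (q : ℕ) (F : Sys R) : HH q (Q F) a →+ HH (q + 1) F a :=
  ((ses_can F).pb a).del q

theorem dl_can (q : ℕ) (F : Sys R) (ξ : H q (Q F)) :
    Hmap (q + 1) (F.can a) ((ses_can F).del q ξ) = dl a q F (Hmap q ((Q F).can a) ξ) :=
  (ses_can F).del_nat ((ses_can F).pb a) (F.can a) ((J F).can a) ((Q F).can a) (fun _ _ _ => rfl)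
    (fun _ _ _ => rfl) q ξ

theorem dl_act (q : ℕ) (F : Sys R) (g : Γ) (ξ : HH q (Q F) a) :
    actH h (q + 1) F g (dl a q F ξ) = dl a q F (actH h q (Q F) g ξ) := by
  rw [actH_apply, actH_apply]
  exact ((ses_can F).pb a).del_nat ((ses_can F).pb a) (F.rm (ρ g) (h.fix g))
    ((J F).rm (ρ g) (h.fix g)) ((Q F).rm (ρ g) (h.fix g))
    (fun y u _ => congrArg (fun b : R →+* Rt => (eta F).φ (y.comp b) u) (h.fix g))
    (fun y u _ => show (piQ F).φ (y.comp ((ρ g).comp a)) u = (piQ F).φ (y.comp a) u by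
      rw [h.fix]) q ξ

theorem up_eta {F : Sys R} {F' : Sys R'} (φ : Mor fr F F') (e : ft.comp a = a'.comp fr)
    (y : Pnt Rt') (u : F.A) (hu : u ∈ F.M ((y.comp ft).comp a)) :
    φ.jm.φ (y.comp a') ((eta F).φ ((y.comp ft).comp a) u) =
      (eta F').φ (y.comp a') (φ.φ (y.comp a') u) := by
  rw [RingHom.comp_assoc, e] at hu ⊢
  exact φ.jm_eta (y.comp a') hu

theorem up_pi {F : Sys R} {F' : Sys R'} (φ : Mor fr F F') (e : ft.comp a = a'.comp fr)
    (y : Pnt Rt') (u : (J F).A) (hu : u ∈ (J F).M ((y.comp ft).comp a)) :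
    φ.qm.φ (y.comp a') ((piQ F).φ ((y.comp ft).comp a) u) =
      (piQ F').φ (y.comp a') (φ.jm.φ (y.comp a') u) := by
  rw [RingHom.comp_assoc, e] at hu ⊢
  exact φ.qm_pi (y.comp a') hu

theorem dl_up {F : Sys R} {F' : Sys R'} (φ : Mor fr F F') (e : ft.comp a = a'.comp fr) (q : ℕ)
    (ξ : HH q (Q F) a) :
    Hmap (q + 1) (up φ e) (dl a q F ξ) = dl a' q F' (Hmap q (up φ.qm e) ξ) :=
  ((ses_can F).pb a).del_nat ((ses_can F').pb a') (up φ e) (up φ.jm e) (up φ.qm e) (up_eta φ e)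
    (up_pi φ e) q ξ

/-- The cocycle `z` represents the class `ξ` of degree one. -/
def Rel0 (F : Sys R) (z : Γ → F.S a) (ξ : H 1 F) : Prop :=
  ∃ (s : Z0 (Q F)) (c : (J F).S a), (ses_can F).del0 s = ξ ∧
    resS (Q F) a s = appS (piQ F) a c ∧ ∀ g, appS (eta F) a (z g) = h.act (J F) g c - c

/-- The cocycle `z` represents the class `ξ`. -/
def Rel : ∀ (j : ℕ) (F : Sys R), (Γ → HH j F a) → H (j + 1) F → Prop
  | 0, F, z, ξ => Rel0 h F z ξ
  | j + 1, F, z, ξ => ∃ z' ξ', Rel j (Q F) z' ξ' ∧ (ses_can F).del (j + 1) ξ' = ξ ∧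
      ∀ g, z g = dl a j F (z' g)

variable {h} {j : ℕ} {F : Sys R} {z z' : Γ → HH j F a} {ξ ξ' : H (j + 1) F}

theorem eta_inj_app (F : Sys R) : Function.Injective (appS (eta F) a) :=
  ((ses_can F).pb a).inj.app

theorem pi_ker (F : Sys R) (c : (J F).S a) :
    appS (piQ F) a c = 0 ↔ ∃ y, appS (eta F) a y = c := ((ses_can F).pb a).app_mid c

section zero

variable {z z' : Γ → F.S a} {ξ ξ' : H 1 F}

theorem Rel0.sub (h1 : Rel0 h F z ξ) (h2 : Rel0 h F z' ξ') : Rel0 h F (z - z') (ξ - ξ') := by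
  obtain ⟨s, c, rfl, e1, e2⟩ := h1
  obtain ⟨s', c', rfl, e1', e2'⟩ := h2
  refine ⟨s - s', c - c', map_sub _ _ _, by rw [map_sub, map_sub, e1, e1'], fun g => ?_⟩
  rw [Pi.sub_apply, map_sub, e2, e2', map_sub]
  abel

theorem Rel0.mem (h1 : Rel0 h F z ξ) : z ∈ AL.Zc Φ (h.act F) := by
  obtain ⟨s, c, -, -, e⟩ := h1
  refine ⟨fun g k => eta_inj_app F ?_, (h.disc _ c).mono fun g hg => eta_inj_app F ?_⟩
  · rw [map_add, h.act_app, e, e, e, map_sub, map_mul, End.mul_apply]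
    abel
  · rw [e, hg, sub_self, map_zero]

theorem Rel0.kill (h1 : Rel0 h F z ξ) {y : F.S a} (hy : ∀ g, z g = h.act F g y - y) : ξ = 0 := by
  obtain ⟨s, c, rfl, e1, e2⟩ := h1
  obtain ⟨t, ht⟩ := h.desc (J F) (c - appS (eta F) a y) fun g => by
    have h3 := e2 g
    rw [hy, map_sub, h.act_app] at h3
    rw [map_sub]
    exact sub_eq_sub_iff_sub_eq_sub.1 h3.symm
  refine (SES.del0_ker _ _).2 ⟨t, h.res_inj _ ?_⟩
  rw [← appS_resS, ht, map_sub, ← e1, (pi_ker F _).2 ⟨y, rfl⟩, sub_zero]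

end zero

theorem Rel.sub (h1 : Rel h j F z ξ) (h2 : Rel h j F z' ξ') : Rel h j F (z - z') (ξ - ξ') := by
  induction j generalizing F with
  | zero => exact Rel0.sub h1 h2
  | succ j ih =>
    obtain ⟨y, ζ, e1, rfl, e2⟩ := h1
    obtain ⟨y', ζ', e1', rfl, e2'⟩ := h2
    exact ⟨y - y', ζ - ζ', ih e1 e1', map_sub _ _ _, fun g => by
      rw [Pi.sub_apply, Pi.sub_apply, map_sub, e2, e2']⟩

variable (h j F) in
theorem rel_zero : Rel h j F 0 0 := by
  induction j generalizing F with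
  | zero => exact ⟨0, 0, map_zero _, by rw [map_zero, map_zero], fun g =>
      (map_zero (appS (eta F) a)).trans (by rw [map_zero, sub_zero])⟩
  | succ j ih => exact ⟨0, 0, ih _, map_zero _, fun g => (map_zero _).symm⟩

theorem Rel.add (h1 : Rel h j F z ξ) (h2 : Rel h j F z' ξ') : Rel h j F (z + z') (ξ + ξ') := by
  simpa using h1.sub ((rel_zero h j F).sub h2)

theorem Rel.zsmul (h1 : Rel h j F z ξ) (n : ℤ) : Rel h j F (n • z) (n • ξ) := by
  induction n using Int.induction_on with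
  | zero => simpa using rel_zero h j F
  | succ n ih => simpa only [add_smul, one_smul] using ih.add h1
  | pred n ih => simpa only [sub_smul, one_smul] using ih.sub h1

/-- (1) The first component is a continuous cocycle. -/
theorem Rel.mem (h1 : Rel h j F z ξ) : z ∈ AL.Zc Φ (actH h j F) := by
  induction j generalizing F with
  | zero => exact Rel0.mem (h := h) (F := F) h1
  | succ j ih =>
    obtain ⟨y, ζ, e1, -, e⟩ := h1
    obtain ⟨h2, h3⟩ := ih e1
    exact ⟨fun g k => by rw [e, e, e, h2, map_add, dl_act],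
      h3.mono fun g hg => by rw [e, hg, map_zero]⟩

/-- The Godement systems stay acyclic on the top of the tower. -/
def Acy (a : R →+* Rt) : Prop := ∀ (F : Sys R) (q : ℕ) (ξ : HH (q + 1) (J F) a), ξ = 0

variable (h) in
/-- (2) A class that dies on the top of the tower is represented by a cocycle. -/
theorem exists_rel (ha : Acy a) (ξ : H (j + 1) F) (h0 : Hmap (j + 1) (F.can a) ξ = 0) :
    ∃ z, Rel h j F z ξ := by
  induction j generalizing F with
  | zero =>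
    obtain ⟨s, rfl⟩ : ∃ s : Z0 (Q F), (ses_can F).del 0 s = ξ := del_can_surj F 0 ξ
    obtain ⟨c, hc⟩ : ∃ c, appS (piQ F) a c = resS (Q F) a s :=
      (SES.del_ker _ 0 _).1 ((dl_can 0 F s).symm.trans h0)
    choose z hz using fun g => (pi_ker F (h.act (J F) g c - c)).1
      ((map_sub (appS (piQ F) a) _ _).trans (by rw [h.act_app, hc, h.act_res, sub_self]))
    exact ⟨z, s, c, rfl, hc.symm, hz⟩
  | succ j ih =>
    obtain ⟨ζ, rfl⟩ := del_can_surj F (j + 1) ξ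
    obtain ⟨c, hc⟩ := (SES.del_ker _ _ _).1 ((dl_can (j + 1) F ζ).symm.trans h0)
    rw [ha F j c, map_zero] at hc
    obtain ⟨y, hy⟩ := ih ζ hc.symm
    exact ⟨_, y, ζ, hy, rfl, fun _ => rfl⟩

theorem cob_of_lift {l k : ℕ} [Fact l.Prime] (h2 : AL.H2 Φ l) (hF : F.Tor (l ^ k))
    {w : Γ → (Q F).S a} (hw : w ∈ AL.Zc Φ (h.act (Q F))) {y : (Q F).S a}
    (h3 : ∀ g, ∃ c, appS (piQ F) a c = w g - (h.act (Q F) g y - y)) :
    ∃ y', ∀ g, w g = h.act (Q F) g y' - y' := by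
  have h4 : (fun g => h.act (Q F) g y - y) ∈ AL.Zc Φ (h.act (Q F)) := ⟨fun g k => by
    simp only [map_mul, End.mul_apply, map_sub]
    abel, (h.disc _ y).mono fun g hg => sub_eq_zero.2 hg⟩
  obtain ⟨c, hc⟩ := lift_disc h2 (appS (piQ F) a) (h.act_app _) (k := k)
    (fun m => Subtype.ext (funext fun x => J_tor hF _ _ ((J F).mem m.2 x))) (h.disc _)
    ⟨_, sub_mem hw h4⟩ h3
  obtain ⟨u, hu⟩ := h.cob_J F c
  refine ⟨y + appS (piQ F) a u, fun g => ?_⟩
  have h5 : appS (piQ F) a (c.1 g) = w g - (h.act (Q F) g y - y) := hc g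
  rw [hu, map_sub, h.act_app] at h5
  rw [map_add, eq_add_of_sub_eq h5.symm]
  abel

/-- (3) Coboundaries represent zero. -/
theorem Rel.kill (ha : Acy a) {l k : ℕ} [Fact l.Prime] (h2 : AL.H2 Φ l) (hF : F.Tor (l ^ k))
    (h1 : Rel h j F z ξ) {y : HH j F a} (hy : ∀ g, z g = actH h j F g y - y) : ξ = 0 := by
  induction j generalizing F with
  | zero => exact Rel0.kill h1 hy
  | succ j ih =>
    obtain ⟨w, ζ, e1, rfl, e2⟩ := h1
    obtain ⟨y, rfl⟩ := (((ses_can F).pb a).del_range j y).1 (ha F j _)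
    have h3 : ∀ g, w g - (actH h j (Q F) g y - y) ∈ (Hmap j ((piQ F).pb a)).range := fun g =>
      (SES.del_ker _ j _).1 ((map_sub (dl a j F) _ _).trans (by
        rw [← e2, hy, map_sub, ← dl_act]
        exact sub_self _))
    have h4 : ∃ y', ∀ g, w g = actH h j (Q F) g y' - y' := by
      cases j with
      | succ j =>
        refine ⟨y, fun g => ?_⟩
        obtain ⟨c, hc⟩ := h3 g
        rw [ha F j c, map_zero] at hc
        exact sub_eq_zero.1 hc.symm
      | zero => exact cob_of_lift h2 hF (Rel0.mem e1) h3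
    obtain ⟨y', hy'⟩ := h4
    rw [ih (Q_tor hF) e1 hy', map_zero]

/-- (4) Naturality for a morphism of towers. -/
theorem Rel.map (h1 : Rel h j F z ξ) {F' : Sys R'} (φ : Mor fr F F') (e : ft.comp a = a'.comp fr)
    (σ : Γ' → Γ) (hσ : ∀ g, ft.comp (ρ (σ g)) = (ρ' g).comp ft) :
    Rel h' j F' (fun g => Hmap j (up φ e) (z (σ g))) (Hmap (j + 1) φ ξ) := by
  have hd := fun (F : Sys R) (F' : Sys R') (φ : Mor fr F F') => (ses_can F).del_nat (ses_can F') φ
    φ.jm φ.qm (fun x u hu => φ.jm_eta x hu) fun x u hu => φ.qm_pi x hu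
  induction j generalizing F F' with
  | zero =>
    obtain ⟨s, c, rfl, e1, e2⟩ := h1
    refine ⟨φ.qm.app s, (up φ.jm e).app c, (hd F F' φ 0 s).symm, ?_, fun g => ?_⟩
    · refine (up_can φ.qm e 0 s).symm.trans ((congrArg (up φ.qm e).app e1).trans ?_)
      exact Subtype.ext (funext fun y => up_pi φ e y _ ((J F).mem c.2 (y.comp ft)))
    · refine Eq.trans ?_ ((congrArg (up φ.jm e).app (e2 (σ g))).trans
        ((map_sub _ _ _).trans (congrArg (· - _) (up_act h h' φ.jm e (hσ g) 0 c))))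
      exact Subtype.ext (funext fun y => (up_eta φ e y _ (F.mem (z (σ g)).2 (y.comp ft))).symm)
  | succ j ih =>
    obtain ⟨w, ζ, e1, rfl, e2⟩ := h1
    exact ⟨_, _, ih e1 φ.qm, (hd F F' φ (j + 1) ζ).symm, fun g =>
      (congrArg _ (e2 _)).trans (dl_up φ e j _)⟩

/-- Representation by a cocycle with values in a module that maps onto the cohomology. -/
theorem exists_rel_lift (ha : Acy a) {l k : ℕ} [Fact l.Prime] (h2 : AL.H2 Φ l) {M : Type}
    [AddCommGroup M] {τ : Γ →* End ℤ M} (π : M →+ HH j F a) (hπ : Function.Surjective π)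
    (he : ∀ g m, π (τ g m) = actH h j F g (π m)) (hl : ∀ m : M, l ^ k • m = 0)
    (hd : ∀ m : M, Φ.Ev fun g => τ g m = m) (ξ : H (j + 1) F)
    (h0 : Hmap (j + 1) (F.can a) ξ = 0) :
    ∃ c ∈ AL.Zc Φ τ, Rel h j F (fun g => π (c g)) ξ := by
  obtain ⟨z, hz⟩ := exists_rel h ha ξ h0
  obtain ⟨c, hc⟩ := lift_disc h2 π he hl hd ⟨z, hz.mem⟩ fun g => hπ _
  exact ⟨c.1, c.2, (funext hc : (fun g => π (c.1 g)) = z) ▸ hz⟩

end

end Pool.Agent.Lib.MP_16ef92_ag.HS
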